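import Mathlib

/-!
# Sums of a dense set of integers in an interval: a covering argument

If `B` has at least `δ H` elements in an interval of length `H`, then for `m ≥ 4 / δ ^ 2` there is
`σ` such that every integer of the interval `[2 m σ, 2 m σ + H]` is `l` more than a sum of `4 m`
elements of `B`, for some `l < m`.
-/

set_option autoImplicit false

namespace Pool.Agent.TH696.WR

open scoped Pointwise
open Finset

/-- a walk in a finite set with steps in `E` can be shortened -/
lemma walk (E : Set ℤ) : ∀ (c : ℕ) (T : Finset ℤ) (n : ℕ) (f : ℕ → ℤ), T.card = c →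
    (∀ i ≤ n, f i ∈ T) → (∀ i < n, f (i + 1) - f i ∈ E) →
    ∃ l : ℕ, l < c ∧ f n - f 0 ∈ l • E := by
  intro c
  induction c with
  | zero =>
    intro T n f hT hf _
    have := hf 0 (Nat.zero_le n)
    rw [Finset.card_eq_zero] at hT
    rw [hT] at this
    simp at this
  | succ c ih =>
    intro T n f hT hf hE
    classical
    set i := Nat.findGreatest (fun i => f i = f 0) n with hi
    have hin : i ≤ n := Nat.findGreatest_le n
    have hfi : f i = f 0 := Nat.findGreatest_spec (P := fun i => f i = f 0) (Nat.zero_le n) rfl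
    have hgr : ∀ j, i < j → j ≤ n → f j ≠ f 0 := fun j h1 h2 h3 =>
      Nat.findGreatest_is_greatest h1 h2 h3
    rcases hin.eq_or_lt with h | h
    · refine ⟨0, Nat.succ_pos c, ?_⟩
      rw [← h, hfi, sub_self, zero_nsmul]
      exact Set.mem_zero.2 rfl
    · have hcard : (T.erase (f 0)).card = c := by
        rw [Finset.card_erase_of_mem (hf 0 (Nat.zero_le n)), hT]
        rfl
      obtain ⟨l, hl, hl2⟩ := ih (T.erase (f 0)) (n - i - 1) (fun j => f (i + 1 + j)) hcard
        (fun j hj => by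
          rw [Finset.mem_erase]
          exact ⟨hgr _ (by omega) (by omega), hf _ (by omega)⟩)
        (fun j hj => by
          have := hE (i + 1 + j) (by omega)
          exact this)
      refine ⟨l + 1, by omega, ?_⟩
      have e1 : i + 1 + (n - i - 1) = n := by omega
      simp only [e1, add_zero] at hl2
      have h2 := hE i h
      have e2 : f n - f 0 = (f n - f (i + 1)) + (f (i + 1) - f i) := by rw [hfi]; ring
      rw [e2, succ_nsmul]
      exact Set.add_mem_add hl2 h2

lemma nsmul_one_set (l : ℕ) : l • ({1} : Set ℤ) = {(l : ℤ)} := by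
  induction l with
  | zero => rw [zero_nsmul]; rfl
  | succ l ih =>
    rw [succ_nsmul, ih, Set.singleton_add_singleton]
    push_cast
    rfl

lemma nsmul_single (l : ℕ) (σ : ℤ) : l • ({σ} : Set ℤ) = {(l : ℤ) * σ} := by
  induction l with
  | zero => rw [zero_nsmul, Nat.cast_zero, zero_mul]; rfl
  | succ l ih =>
    rw [succ_nsmul, ih, Set.singleton_add_singleton]
    push_cast
    rw [add_mul, one_mul]

/-- monotonicity in the number of summands -/
lemma nsmul_mono_left {D : Set ℤ} (h0 : (0 : ℤ) ∈ D) {a b : ℕ} (hab : a ≤ b) :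
    a • D ⊆ b • D := by
  obtain ⟨c, rfl⟩ := Nat.exists_eq_add_of_le hab
  intro x hx
  rw [add_nsmul]
  have h : (0 : ℤ) ∈ c • D := by
    clear hab hx
    induction c with
    | zero => rw [zero_nsmul]; exact Set.mem_zero.2 rfl
    | succ c ih =>
      rw [succ_nsmul]
      exact Set.mem_add.2 ⟨0, ih, 0, h0, by simp⟩
  exact Set.mem_add.2 ⟨x, hx, 0, h, by simp⟩

/-- monotonicity in the set -/
lemma nsmul_mono_right {A B : Set ℤ} (h : A ⊆ B) (a : ℕ) : a • A ⊆ a • B := by
  induction a with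
  | zero => rw [zero_nsmul, zero_nsmul]
  | succ a ih =>
    rw [succ_nsmul, succ_nsmul]
    exact Set.add_subset_add ih h

/-- a popular sum -/
lemma popular (B : Finset ℤ) (u : ℤ) (H : ℕ) (hB : ∀ b ∈ B, u ≤ b ∧ b < u + H) (hH : 1 ≤ H)
    (δ : ℝ) (hδ : 0 < δ) (hc : δ * H ≤ B.card) :
    ∃ σ : ℤ, 2 * u ≤ σ ∧ σ ≤ 2 * (u + H) ∧
      δ ^ 2 * H / 2 ≤ ((B.filter (fun b => σ - b ∈ B)).card : ℝ) := by
  classical
  have hmaps : ∀ x ∈ B ×ˢ B, x.1 + x.2 ∈ Finset.Icc (2 * u) (2 * u + 2 * H - 2) := by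
    intro x hx
    rw [Finset.mem_product] at hx
    have h1 := hB _ hx.1
    have h2 := hB _ hx.2
    rw [Finset.mem_Icc]
    constructor <;> omega
  have hne : (Finset.Icc (2 * u) (2 * u + 2 * H - 2)).Nonempty := by
    refine ⟨2 * u, ?_⟩
    rw [Finset.mem_Icc]
    constructor <;> omega
  have hcard : (((Finset.Icc (2 * u) (2 * u + 2 * H - 2)).card : ℕ) : ℝ) ≤ 2 * H := by
    rw [Int.card_Icc]
    have : (2 * u + 2 * (H : ℤ) - 2 + 1 - 2 * u).toNat ≤ 2 * H := by omega
    exact_mod_cast this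
  have hHr : (0 : ℝ) ≤ (H : ℝ) := Nat.cast_nonneg _
  have hb : (Finset.Icc (2 * u) (2 * u + 2 * H - 2)).card • (δ ^ 2 * H / 2) ≤
      (((B ×ˢ B).card : ℕ) : ℝ) := by
    rw [nsmul_eq_mul, Finset.card_product]
    push_cast
    calc _ ≤ (2 * (H : ℝ)) * (δ ^ 2 * H / 2) := by
          apply mul_le_mul_of_nonneg_right hcard
          positivity
      _ = (δ * H) * (δ * H) := by ring
      _ ≤ (B.card : ℝ) * B.card := by
          apply mul_le_mul hc hc (by positivity) (by positivity)
  obtain ⟨σ, hσ, hσ2⟩ := Finset.exists_le_card_fiber_of_nsmul_le_card_of_maps_to hmaps hne hb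
  rw [Finset.mem_Icc] at hσ
  refine ⟨σ, hσ.1, by omega, hσ2.trans ?_⟩
  have : ((B ×ˢ B).filter (fun x => x.1 + x.2 = σ)).card ≤
      (B.filter (fun b => σ - b ∈ B)).card := by
    apply Finset.card_le_card_of_injOn (fun x => x.1)
    · intro x hx
      simp only [Finset.coe_filter, Finset.mem_product, Set.mem_ofPred_eq] at hx
      simp only [Finset.coe_filter, Set.mem_ofPred_eq]
      refine ⟨hx.1.1, ?_⟩
      have : σ - x.1 = x.2 := by rw [← hx.2]; ring
      rw [this]
      exact hx.1.2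
    · intro x hx y hy hxy
      simp only [Finset.coe_filter, Finset.mem_product, Set.mem_ofPred_eq] at hx hy
      have h3 : x.1 = y.1 := hxy
      have h4 : x.2 = y.2 := by
        have := hx.2.trans hy.2.symm
        rw [h3] at this
        exact add_left_cancel this
      exact Prod.ext h3 h4
  exact_mod_cast this

/-- the translates of `B` by the elements of `T` are disjoint -/
def Sep (B T : Finset ℤ) : Prop :=
  ∀ t ∈ T, ∀ t' ∈ T, t ≠ t' → ∀ b ∈ B, ∀ b' ∈ B, t + b ≠ t' + b'

/-- a maximal packing of translates -/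
lemma packing (B : Finset ℤ) (u : ℤ) (H : ℕ) (hB : ∀ b ∈ B, u ≤ b ∧ b < u + H) (hne : B.Nonempty) :
    ∃ T : Finset ℤ, T.card * B.card ≤ 2 * H ∧
      ∀ n : ℤ, 0 ≤ n → n ≤ H → ∃ t ∈ T, ∃ b ∈ B, ∃ b' ∈ B, n - t = b - b' := by
  classical
  set F := (Finset.Icc (0 : ℤ) H).powerset.filter (fun T => Sep B T) with hF
  have hFne : F.Nonempty := ⟨∅, by rw [hF, Finset.mem_filter]; simp [Sep]⟩
  obtain ⟨T, hT, hmax⟩ := Finset.exists_max_image F Finset.card hFne
  rw [hF, Finset.mem_filter, Finset.mem_powerset] at hT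
  refine ⟨T, ?_, ?_⟩
  · rw [← Finset.card_product]
    have h1 : (T ×ˢ B).card ≤ (Finset.Ico u (u + 2 * H)).card := by
      apply Finset.card_le_card_of_injOn (fun x => x.1 + x.2)
      · intro x hx
        simp only [Finset.coe_product, Set.mem_prod, Finset.mem_coe] at hx
        have h2 := Finset.mem_Icc.1 (hT.1 hx.1)
        have h3 := hB _ hx.2
        simp only [Finset.coe_Ico, Set.mem_Ico]
        constructor <;> omega
      · intro x hx y hy hxy
        simp only [Finset.coe_product, Set.mem_prod, Finset.mem_coe] at hx hy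
        have hxy' : x.1 + x.2 = y.1 + y.2 := hxy
        by_cases h : x.1 = y.1
        · refine Prod.ext h ?_
          rw [h] at hxy'
          exact add_left_cancel hxy'
        · exact absurd hxy' (hT.2 _ hx.1 _ hy.1 h _ hx.2 _ hy.2)
    rw [Int.card_Ico] at h1
    omega
  · intro n hn0 hnH
    by_cases hn : n ∈ T
    · obtain ⟨b, hb⟩ := hne
      exact ⟨n, hn, b, hb, b, hb, by ring⟩
    · by_contra hcon
      push Not at hcon
      have hins : insert n T ∈ F := by
        rw [hF, Finset.mem_filter, Finset.mem_powerset]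
        refine ⟨?_, ?_⟩
        · intro x hx
          rw [Finset.mem_insert] at hx
          rcases hx with rfl | hx
          · exact Finset.mem_Icc.2 ⟨hn0, hnH⟩
          · exact hT.1 hx
        · intro t ht t' ht' hne b hb b' hb' heq
          rw [Finset.mem_insert] at ht ht'
          rcases ht with rfl | ht <;> rcases ht' with rfl | ht'
          · exact hne rfl
          · exact hcon t' ht' b' hb' b hb (by linarith)
          · exact hcon t ht b hb b' hb' (by linarith)
          · exact hT.2 t ht t' ht' hne b hb b' hb' heq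
      have := hmax _ hins
      rw [Finset.card_insert_of_notMem hn] at this
      omega

/-- **the covering argument** -/
theorem comb (B : Finset ℤ) (u : ℤ) (H m : ℕ) (hB : ∀ b ∈ B, u ≤ b ∧ b < u + H) (hH : 1 ≤ H)
    (δ : ℝ) (hδ : 0 < δ) (hc : δ * H ≤ B.card) (hm : 4 / δ ^ 2 ≤ m) :
    ∃ σ : ℤ, 2 * u ≤ σ ∧ σ ≤ 2 * (u + H) ∧
      ∀ n : ℕ, n ≤ H → ∃ l : ℕ, l < m ∧
        (n : ℤ) - l + 2 * m * σ ∈ (4 * m) • (B : Set ℤ) := by
  classical
  obtain ⟨σ, h1, h2, h3⟩ := popular B u H hB hH δ hδ hc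
  refine ⟨σ, h1, h2, ?_⟩
  set C := B.filter (fun b => σ - b ∈ B) with hC
  have hHr : (1 : ℝ) ≤ (H : ℝ) := by exact_mod_cast hH
  have hCpos : 0 < C.card := by
    have : (0 : ℝ) < (C.card : ℝ) := lt_of_lt_of_le (by positivity) h3
    exact_mod_cast this
  obtain ⟨T, hT1, hT2⟩ := packing C u H (fun b hb => hB b (Finset.mem_filter.1 hb).1)
    (Finset.card_pos.1 hCpos)
  have hTm : T.card ≤ m := by
    have h4 : (T.card : ℝ) * (δ ^ 2 * H / 2) ≤ 2 * H := by
      calc (T.card : ℝ) * (δ ^ 2 * H / 2) ≤ (T.card : ℝ) * C.card :=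
            mul_le_mul_of_nonneg_left h3 (Nat.cast_nonneg _)
        _ ≤ 2 * H := by exact_mod_cast hT1
    have h5 : (T.card : ℝ) * δ ^ 2 ≤ 4 := by
      have h6 : ((T.card : ℝ) * δ ^ 2) * (H : ℝ) ≤ 4 * (H : ℝ) := by nlinarith
      exact le_of_mul_le_mul_right h6 (by linarith)
    have h7 : (T.card : ℝ) ≤ 4 / δ ^ 2 := by
      rw [le_div_iff₀ (by positivity)]
      exact h5
    exact_mod_cast h7.trans hm
  -- the difference set
  set D : Set ℤ := {d | ∃ b ∈ C, ∃ b' ∈ C, d = b - b'} with hD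
  have hD0 : (0 : ℤ) ∈ D := by
    obtain ⟨b, hb⟩ := Finset.card_pos.1 hCpos
    exact ⟨b, hb, b, hb, by ring⟩
  have hDneg : ∀ d ∈ D, -d ∈ D := by
    rintro d ⟨b, hb, b', hb', rfl⟩
    exact ⟨b', hb', b, hb, by ring⟩
  have hex : ∀ n : ℕ, ∃ t : ℤ, n ≤ H → (t ∈ T ∧ (n : ℤ) - t ∈ D) := by
    intro n
    by_cases hn : n ≤ H
    · obtain ⟨t, ht, b, hb, b', hb', h⟩ := hT2 n (by positivity) (by exact_mod_cast hn)
      exact ⟨t, fun _ => ⟨ht, b, hb, b', hb', h⟩⟩
    · exact ⟨0, fun h => absurd h hn⟩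
  choose f hf using hex
  intro n hn
  obtain ⟨l, hl, hl2⟩ := walk ({1} + (D + D)) T.card T n f rfl
    (fun i hi => (hf i (hi.trans hn)).1)
    (fun i hi => by
      have ha := (hf i (hi.le.trans hn)).2
      have hb := (hf (i + 1) (le_trans hi hn)).2
      refine Set.mem_add.2 ⟨1, rfl, ((i : ℤ) - f i) + -(((i + 1 : ℕ) : ℤ) - f (i + 1)),
        Set.add_mem_add ha (hDneg _ hb), ?_⟩
      push_cast
      ring)
  refine ⟨l, lt_of_lt_of_le hl hTm, ?_⟩
  rw [nsmul_add, nsmul_one_set, Set.mem_add] at hl2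
  obtain ⟨x, hx, y, hy, hxy⟩ := hl2
  rw [Set.mem_singleton_iff] at hx
  rw [hx] at hxy
  have hf0 : f 0 ∈ D := by
    have := hDneg _ (hf 0 (Nat.zero_le H)).2
    simpa using this
  have hfn := (hf n hn).2
  have hmem : (n : ℤ) - l ∈ (2 * m) • D := by
    have h8 : (n : ℤ) - l = (((n : ℤ) - f n) + y) + f 0 := by linarith
    have h9 : (n : ℤ) - l ∈ (2 * l + 2) • D := by
      rw [h8]
      have h10 : (2 * l + 2) • D = D + l • (D + D) + D := by
        rw [nsmul_add, add_nsmul, two_nsmul, mul_comm 2 l, mul_nsmul, two_nsmul]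
        abel
      rw [h10]
      exact Set.add_mem_add (Set.add_mem_add hfn hy) hf0
    exact nsmul_mono_left hD0 (by omega) h9
  have hsub : D + {σ} ⊆ (B : Set ℤ) + (B : Set ℤ) := by
    intro z hz
    rw [Set.mem_add] at hz
    obtain ⟨d, ⟨b, hb, b', hb', rfl⟩, s, hs, rfl⟩ := hz
    rw [Set.mem_singleton_iff] at hs
    subst hs
    refine Set.mem_add.2 ⟨b, (Finset.mem_filter.1 hb).1, s - b', (Finset.mem_filter.1 hb').2, ?_⟩
    ring
  have h11 : (n : ℤ) - l + ((2 * m : ℕ) : ℤ) * σ ∈ (2 * m) • (D + {σ}) := by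
    rw [nsmul_add, nsmul_single]
    exact Set.add_mem_add hmem rfl
  have h12 := nsmul_mono_right hsub (2 * m) h11
  have h13 : (2 * m) • ((B : Set ℤ) + (B : Set ℤ)) = (4 * m) • (B : Set ℤ) := by
    rw [nsmul_add, ← add_nsmul]
    congr 1
    ring
  rw [h13] at h12
  push_cast at h12
  exact h12

end Pool.Agent.TH696.WR
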