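import Pool.Agent.TH696.WR.A

/-!
# Sums of `k`-th powers: from an interval to longer intervals

If all integers of `[X, X + H]` are sums of `S` `k`-th powers and `H` is large in terms of `k`, then
all integers of `[X, X + H ^ (2 ^ b)]` are sums of `S + k b` `k`-th powers.
-/

set_option autoImplicit false

namespace Pool.Agent.TH696.WR

open scoped Pointwise

/-- the `k`-th powers of natural numbers, as a set of integers -/
def P (k : ℕ) : Set ℤ := {z | ∃ y : ℕ, z = (y : ℤ) ^ k}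

lemma zero_mem {k : ℕ} (hk : 1 ≤ k) : (0 : ℤ) ∈ P k := ⟨0, by
  rw [Nat.cast_zero, zero_pow (by omega)]⟩

lemma one_mem (k : ℕ) : (1 : ℤ) ∈ P k := ⟨1, by rw [Nat.cast_one, one_pow]⟩

/-- the difference of consecutive `k`-th powers -/
lemma succ_pow_le (x : ℕ) : ∀ k : ℕ, 1 ≤ k → (x + 1) ^ k ≤ x ^ k + k * (x + 1) ^ (k - 1) := by
  intro k hk
  induction k with
  | zero => omega
  | succ k ih =>
    rcases Nat.eq_zero_or_pos k with rfl | h
    · simp
    · have h1 := ih h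
      have e : k + 1 - 1 = k := by omega
      rw [e]
      obtain ⟨j, rfl⟩ : ∃ j, k = j + 1 := ⟨k - 1, by omega⟩
      have e2 : j + 1 - 1 = j := by omega
      rw [e2] at h1
      calc (x + 1) ^ (j + 1 + 1) = (x + 1) ^ (j + 1) * x + (x + 1) ^ (j + 1) := by ring
        _ ≤ (x ^ (j + 1) + (j + 1) * (x + 1) ^ j) * x + (x + 1) ^ (j + 1) := by gcongr
        _ = x ^ (j + 1 + 1) + (j + 1) * ((x + 1) ^ j * x) + (x + 1) ^ (j + 1) := by ring
        _ ≤ x ^ (j + 1 + 1) + (j + 1) * ((x + 1) ^ j * (x + 1)) + (x + 1) ^ (j + 1) := by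
            gcongr
            omega
        _ = x ^ (j + 1 + 1) + (j + 1 + 1) * (x + 1) ^ (j + 1) := by ring

/-- Bernoulli -/
lemma bern (k : ℕ) : ∀ n : ℕ, k ^ (n + 1) + (n + 1) * k ^ n ≤ (k + 1) ^ (n + 1) := by
  intro n
  induction n with
  | zero => simp
  | succ n ih =>
    calc k ^ (n + 1 + 1) + (n + 1 + 1) * k ^ (n + 1)
        ≤ (k ^ (n + 1) + (n + 1) * k ^ n) * (k + 1) := by
          have : (k ^ (n + 1) + (n + 1) * k ^ n) * (k + 1) =
            k ^ (n + 1 + 1) + (n + 1 + 1) * k ^ (n + 1) + (n + 1) * k ^ n := by ring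
          omega
      _ ≤ (k + 1) ^ (n + 1) * (k + 1) := by gcongr
      _ = (k + 1) ^ (n + 1 + 1) := by ring

lemma two_mul_pow_le {k : ℕ} (hk : 1 ≤ k) : 2 * k ^ k ≤ (k + 1) ^ k := by
  obtain ⟨j, rfl⟩ : ∃ j, k = j + 1 := ⟨k - 1, by omega⟩
  have := bern (j + 1) j
  calc 2 * (j + 1) ^ (j + 1) = (j + 1) ^ (j + 1) + (j + 1) * (j + 1) ^ j := by ring
    _ ≤ _ := this

lemma two_pow_mul_le {k : ℕ} (hk : 1 ≤ k) (b : ℕ) :
    2 ^ b * k ^ (k * b) ≤ (k + 1) ^ (k * b) := by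
  rw [pow_mul, pow_mul, ← mul_pow]
  exact Nat.pow_le_pow_left (two_mul_pow_le hk) b

/-- the largest `k`-th power below `y` -/
lemma exists_root {k : ℕ} (hk : 1 ≤ k) (y : ℕ) : ∃ x : ℕ, x ^ k ≤ y ∧ y < (x + 1) ^ k := by
  classical
  have hex : ∃ x : ℕ, y < (x + 1) ^ k := ⟨y, by
    calc y < y + 1 := Nat.lt_succ_self y
      _ = (y + 1) ^ 1 := (pow_one _).symm
      _ ≤ (y + 1) ^ k := Nat.pow_le_pow_right (Nat.succ_pos y) hk⟩
  refine ⟨Nat.find hex, ?_, Nat.find_spec hex⟩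
  rcases Nat.eq_zero_or_pos (Nat.find hex) with h | h
  · rw [h, zero_pow (by omega)]
    exact Nat.zero_le y
  · have hlt : Nat.find hex - 1 < Nat.find hex := by omega
    have := Nat.find_min hex hlt
    have e : Nat.find hex - 1 + 1 = Nat.find hex := by omega
    rw [not_lt, e] at this
    exact this

/-- the size of the remainder -/
lemma remainder {k : ℕ} (hk : 1 ≤ k) (H j y x : ℕ) (hH : (k * 2 ^ (k - 1)) ^ (k ^ 2) ≤ H)
    (hy : y ^ (k ^ (j + 1)) ≤ H ^ ((k + 1) ^ (j + 1))) (h1 : x ^ k ≤ y) (h2 : y < (x + 1) ^ k) :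
    (y - x ^ k) ^ (k ^ j) ≤ H ^ ((k + 1) ^ j) := by
  have hH1 : 1 ≤ H := by
    refine le_trans ?_ hH
    exact Nat.one_le_pow _ _ (by positivity)
  rcases Nat.eq_zero_or_pos x with hx | hx
  · subst hx
    have h3 : y = 0 := by
      rw [zero_add, one_pow] at h2
      omega
    subst h3
    rw [Nat.zero_sub, zero_pow (by positivity)]
    exact Nat.zero_le _
  · have h3 : y - x ^ k ≤ k * 2 ^ (k - 1) * x ^ (k - 1) := by
      have h4 := succ_pow_le x k hk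
      calc y - x ^ k ≤ k * (x + 1) ^ (k - 1) := by omega
        _ ≤ k * (2 * x) ^ (k - 1) := by
            gcongr
            omega
        _ = k * 2 ^ (k - 1) * x ^ (k - 1) := by rw [mul_pow]; ring
    have hk2 : k ^ 2 ≠ 0 := by positivity
    have h5 : (x ^ k) ^ (k ^ (j + 1)) ≤ H ^ ((k + 1) ^ (j + 1)) :=
      (Nat.pow_le_pow_left h1 _).trans hy
    rw [← Nat.pow_le_pow_iff_left hk2]
    calc ((y - x ^ k) ^ (k ^ j)) ^ (k ^ 2)
        ≤ ((k * 2 ^ (k - 1) * x ^ (k - 1)) ^ (k ^ j)) ^ (k ^ 2) := by gcongr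
      _ = ((k * 2 ^ (k - 1)) ^ (k ^ 2)) ^ (k ^ j) * ((x ^ k) ^ (k ^ (j + 1))) ^ (k - 1) := by
          rw [← pow_mul, ← pow_mul, ← pow_mul, ← pow_mul, mul_pow, ← pow_mul]
          congr 1
          · congr 1
            ring
          · congr 1
            ring
      _ ≤ H ^ (k ^ j) * (H ^ ((k + 1) ^ (j + 1))) ^ (k - 1) :=
          Nat.mul_le_mul (Nat.pow_le_pow_left hH _) (Nat.pow_le_pow_left h5 _)
      _ ≤ H ^ ((k + 1) ^ j) * (H ^ ((k + 1) ^ (j + 1))) ^ (k - 1) :=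
          Nat.mul_le_mul (Nat.pow_le_pow_right hH1 (Nat.pow_le_pow_left (Nat.le_succ k) j)) le_rfl
      _ = (H ^ ((k + 1) ^ j)) ^ (k ^ 2) := by
          rw [← pow_mul, ← pow_mul, ← pow_add]
          congr 1
          obtain ⟨i, rfl⟩ : ∃ i, k = i + 1 := ⟨k - 1, by omega⟩
          have e : i + 1 - 1 = i := by omega
          rw [e]
          ring

/-- **the ascent** -/
theorem ascent {k : ℕ} (hk : 1 ≤ k) (S X H : ℕ) (hH : (k * 2 ^ (k - 1)) ^ (k ^ 2) ≤ H)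
    (h0 : ∀ y : ℕ, y ≤ H → ((X : ℤ) + y) ∈ S • P k) :
    ∀ j y : ℕ, y ^ (k ^ j) ≤ H ^ ((k + 1) ^ j) → ((X : ℤ) + y) ∈ (S + j) • P k := by
  intro j
  induction j with
  | zero =>
    intro y hy
    simp only [pow_zero, pow_one] at hy
    rw [add_zero]
    exact h0 y hy
  | succ j ih =>
    intro y hy
    obtain ⟨x, h1, h2⟩ := exists_root hk y
    have h3 := ih (y - x ^ k) (remainder hk H j y x hH hy h1 h2)
    rw [← add_assoc, succ_nsmul]
    refine Set.mem_add.2 ⟨_, h3, (x : ℤ) ^ k, ⟨x, rfl⟩, ?_⟩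
    have h4 : ((y - x ^ k : ℕ) : ℤ) = (y : ℤ) - (x : ℤ) ^ k := by
      rw [Nat.cast_sub h1]
      push_cast
      rfl
    rw [h4]
    ring

theorem ascent_pow {k : ℕ} (hk : 1 ≤ k) (S X H b : ℕ) (hH : (k * 2 ^ (k - 1)) ^ (k ^ 2) ≤ H)
    (h0 : ∀ y : ℕ, y ≤ H → ((X : ℤ) + y) ∈ S • P k) (y : ℕ) (hy : y ≤ H ^ (2 ^ b)) :
    ((X : ℤ) + y) ∈ (S + k * b) • P k := by
  have hH1 : 1 ≤ H := by
    refine le_trans ?_ hH
    exact Nat.one_le_pow _ _ (by positivity)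
  apply ascent hk S X H hH h0
  calc y ^ (k ^ (k * b)) ≤ (H ^ (2 ^ b)) ^ (k ^ (k * b)) := by gcongr
    _ = H ^ (2 ^ b * k ^ (k * b)) := by rw [← pow_mul]
    _ ≤ H ^ ((k + 1) ^ (k * b)) := Nat.pow_le_pow_right hH1 (two_pow_mul_le hk b)

end Pool.Agent.TH696.WR
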